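import Pool.Agent.Helper51.LT.St

/-!
# Project LT (MP_d6acc2_an): module IMS (integral mean of the symmetrised function)
-/

set_option autoImplicit false

namespace Pool.Agent.Helper7.LT

open Pool.Agent.Helper51.LT
open Complex MeasureTheory Set Metric Filter Topology
open scoped Real ENNReal

private lemma cont_IMS (g : ℂ → ℂ) (hg : DifferentiableOn ℂ g (ball 0 1)) (r : ℝ) (hr : 0 < r)
    (hr1 : r < 1) : Continuous (fun t : ℝ => ‖deriv g (circleMap 0 r t)‖) := by
  have hd : DifferentiableOn ℂ (deriv g) (ball 0 1) := hg.deriv isOpen_ball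
  have hmem : ∀ t : ℝ, circleMap 0 r t ∈ ball (0 : ℂ) 1 := by
    intro t
    rw [mem_ball_zero_iff, norm_circleMap_zero, abs_of_pos hr]
    exact hr1
  refine Continuous.norm ?_
  exact hd.continuousOn.comp_continuous (continuous_circleMap 0 r) hmem

theorem hIms : StIms := by
  intro g h N r hg hh hN hr hr1 hgh
  have hN0 : (0 : ℝ) < N := by exact_mod_cast hN
  obtain ⟨ρ, hρ⟩ : ∃ ρ, ρ = r ^ (1 / (N : ℝ)) := ⟨_, rfl⟩
  have hρ0 : 0 < ρ := by rw [hρ]; positivity
  have hρ1 : ρ < 1 := by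
    rw [hρ]; exact Real.rpow_lt_one hr.le hr1 (by positivity)
  have hρN : ρ ^ N = r := by
    rw [hρ, ← Real.rpow_natCast, ← Real.rpow_mul hr.le, one_div, inv_mul_cancel₀ hN0.ne',
      Real.rpow_one]
  rw [← hρ]
  obtain ⟨F, hF⟩ : ∃ F : ℝ → ℝ, F = fun t : ℝ => ‖deriv g (circleMap 0 r t)‖ := ⟨_, rfl⟩
  have hFc : Continuous F := by rw [hF]; exact cont_IMS g hg.1.1 r hr hr1
  have hFp : Function.Periodic F (2 * π) := by
    intro t
    rw [hF]
    show ‖deriv g (circleMap 0 r (t + 2 * π))‖ = ‖deriv g (circleMap 0 r t)‖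
    rw [periodic_circleMap 0 r t]
  have hIM : IM g r = ∫ t in (0 : ℝ)..(2 * π), F t := by rw [hF]; rfl
  have hpow : ∀ t : ℝ, circleMap 0 ρ t ^ N = circleMap 0 r (N * t) := by
    intro t
    simp only [circleMap, zero_add]
    rw [mul_pow, ← Complex.exp_nat_mul, ← Complex.ofReal_pow, hρN]
    congr 2
    push_cast
    ring
  have hcomp : ∫ t in (0 : ℝ)..(2 * π), F (N * t) = ∫ t in (0 : ℝ)..(2 * π), F t := by
    rw [intervalIntegral.integral_comp_mul_left F hN0.ne', mul_zero]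
    have hz := hFp.intervalIntegral_add_zsmul_eq (N : ℤ) 0 (fun a b => hFc.intervalIntegrable a b)
    rw [zero_add, zero_add] at hz
    have he : ((N : ℤ) • (2 * π) : ℝ) = N * (2 * π) := by
      rw [zsmul_eq_mul]; push_cast; rfl
    rw [he] at hz
    rw [hz, zsmul_eq_mul, smul_eq_mul]
    push_cast
    rw [← mul_assoc, inv_mul_cancel₀ hN0.ne', one_mul]
  have hle : ∀ t : ℝ, r * F (N * t) ≤ ‖deriv h (circleMap 0 ρ t)‖ := by
    intro t
    have hn : ‖circleMap 0 ρ t‖ = ρ := by rw [norm_circleMap_zero, abs_of_pos hρ0]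
    have hm : circleMap 0 ρ t ∈ ball (0 : ℂ) 1 := by
      rw [mem_ball_zero_iff, hn]; exact hρ1
    have h1 := hgh _ hm
    rw [hn, hpow] at h1
    have h2 : r ≤ ρ ^ (N - 1) := by
      rw [← hρN]
      exact pow_le_pow_of_le_one hρ0.le hρ1.le (Nat.sub_le N 1)
    have h3 : r * F (N * t) ≤ ρ ^ (N - 1) * ‖deriv g (circleMap 0 r (N * t))‖ := by
      rw [hF]
      exact mul_le_mul_of_nonneg_right h2 (norm_nonneg _)
    exact h3.trans h1
  have hpi : (0 : ℝ) ≤ 2 * π := by positivity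
  calc r * IM g r = r * ∫ t in (0 : ℝ)..(2 * π), F (N * t) := by rw [hIM, hcomp]
    _ = ∫ t in (0 : ℝ)..(2 * π), r * F (N * t) := by rw [intervalIntegral.integral_const_mul]
    _ ≤ ∫ t in (0 : ℝ)..(2 * π), ‖deriv h (circleMap 0 ρ t)‖ := by
        apply intervalIntegral.integral_mono hpi
        · exact (continuous_const.mul (hFc.comp (continuous_const.mul continuous_id))).intervalIntegrable _ _
        · exact (cont_IMS h hh.1.1 ρ hρ0 hρ1).intervalIntegrable _ _
        · exact hle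
    _ = IM h ρ := rfl

end Pool.Agent.Helper7.LT
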