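import Pool.Agent.Helper49.LT.StB

/-!
# Project LT, module QFO
-/

open MeasureTheory Set Filter Metric

namespace Pool.Agent.Helper7.LT

open Helper49.LT Helper97.CB

theorem parseval (f : ℝ → ℝ) (hf : Measurable f) (B : ℝ) (hB : ∀ t, |f t| ≤ B) :
    HasSum (fun n : ℤ => ‖wf f n‖ ^ 2) (2 * Real.pi * ∫ t in (0 : ℝ)..(2 * Real.pi), f t ^ 2) := by
  have hpi := Real.pi_pos
  have hab : (0 : ℝ) < 2 * Real.pi := by positivity
  have hm : MemLp (fun t => (f t : ℂ)) 2 (volume.restrict (Ioc 0 (2 * Real.pi))) := by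
    refine MemLp.of_bound ?_ B ?_
    · exact (Complex.measurable_ofReal.comp hf).aestronglyMeasurable
    · filter_upwards with t
      simpa using hB t
  have h := hasSum_sq_fourierCoeffOn hab hm
  have h2 := h.mul_left ((2 * Real.pi) ^ 2)
  have e1 : ∀ n : ℤ, (2 * Real.pi) ^ 2 * ‖fourierCoeffOn hab (fun t => (f t : ℂ)) n‖ ^ 2 =
      ‖wf f n‖ ^ 2 := by
    intro n
    have e2 : fourierCoeffOn hab (fun t => (f t : ℂ)) n = ((1 / (2 * Real.pi) : ℝ) : ℂ) * wf f n := by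
      rw [fourierCoeffOn_eq_integral, wf, sub_zero, Complex.real_smul]
      congr 1
      refine intervalIntegral.integral_congr fun t _ => ?_
      simp only [smul_eq_mul]
      rw [mul_comm, fourier_coe_apply]
      congr 1
      unfold ee
      congr 1
      push_cast
      field_simp
    rw [e2, norm_mul, mul_pow, Complex.norm_real, Real.norm_of_nonneg (by positivity)]
    field_simp
  simp only [e1] at h2
  have e3 : ∀ t, ‖(f t : ℂ)‖ ^ 2 = f t ^ 2 := by
    intro t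
    rw [Complex.norm_real, Real.norm_eq_abs, sq_abs]
  simp only [e3, sub_zero, smul_eq_mul] at h2
  have e4 : (2 * Real.pi) ^ 2 * ((2 * Real.pi)⁻¹ * ∫ t in (0 : ℝ)..(2 * Real.pi), f t ^ 2) =
      2 * Real.pi * ∫ t in (0 : ℝ)..(2 * Real.pi), f t ^ 2 := by
    field_simp
  rw [e4] at h2
  exact h2

section

variable {w w' : ℝ → ℝ} (h : Rough 1 w w')
include h

theorem wf_shift (c : ℝ) (n : ℤ) : wf (fun t => w (t + c)) n = ee ((n : ℝ) * c) * wf w n := by
  unfold wf
  rw [← intervalIntegral.integral_const_mul]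
  have h1 := integral_shift (fun t => (w t : ℂ) * ee (-(n : ℝ) * t) * ee ((n : ℝ) * c)) (by
    intro t
    have := ee_int (-n) t
    push_cast at this
    rw [h.per, this]) c
  have h2 : ∀ t, (w (t + c) : ℂ) * ee (-(n : ℝ) * (t + c)) * ee ((n : ℝ) * c) =
      (w (t + c) : ℂ) * ee (-(n : ℝ) * t) := by
    intro t
    rw [mul_assoc, ← ee_add]
    congr 2
    ring
  simp only [h2] at h1
  rw [h1]
  refine intervalIntegral.integral_congr fun t _ => ?_
  ring

theorem wf_deriv (n : ℤ) : wf w' n = Complex.I * n * wf w n := by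
  have hd : ∀ t, HasDerivWithinAt (fun s => (w s : ℂ) * ee (-(n : ℝ) * s))
      ((w' t : ℂ) * ee (-(n : ℝ) * t) + (w t : ℂ) * (((-(n : ℝ) : ℝ) : ℂ) * Complex.I *
        ee (-(n : ℝ) * t))) (Ioi t) t := by
    intro t
    exact (h.der t).ofReal_comp.mul (hasDerivAt_ee (-(n : ℝ)) t).hasDerivWithinAt
  have hee : Continuous (fun s : ℝ => ee (-(n : ℝ) * s)) := continuous_ee.comp (by fun_prop)
  have hw : Continuous (fun s => (w s : ℂ)) := Complex.continuous_ofReal.comp h.con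
  have hi1 : IntervalIntegrable (fun t => (w' t : ℂ) * ee (-(n : ℝ) * t)) volume 0
      (2 * Real.pi) := by
    have h0 : IntervalIntegrable (fun t => (w' t : ℂ)) volume 0 (2 * Real.pi) :=
      ⟨(h.int' 0 (2 * Real.pi)).1.ofReal, (h.int' 0 (2 * Real.pi)).2.ofReal⟩
    exact h0.mul_continuousOn hee.continuousOn
  have hi2 : IntervalIntegrable (fun t => (w t : ℂ) * (((-(n : ℝ) : ℝ) : ℂ) * Complex.I *
        ee (-(n : ℝ) * t))) volume 0 (2 * Real.pi) :=
    (hw.mul (continuous_const.mul hee)).intervalIntegrable _ _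
  have h1 := intervalIntegral.integral_eq_sub_of_hasDeriv_right
    (a := 0) (b := 2 * Real.pi) (hw.mul hee).continuousOn (fun t _ => hd t) (hi1.add hi2)
  rw [intervalIntegral.integral_add hi1 hi2] at h1
  have h3 : (w (2 * Real.pi) : ℂ) * ee (-(n : ℝ) * (2 * Real.pi)) - (w 0 : ℂ) * ee (-(n : ℝ) * 0) = 0 := by
    have h4 := ee_int (-n) 0
    push_cast at h4
    rw [zero_add] at h4
    have h5 := h.per 0
    rw [zero_add] at h5
    rw [h5, h4, sub_self]
  replace h1 := h1.trans h3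
  have h6 : ∫ t in (0 : ℝ)..(2 * Real.pi), (w t : ℂ) * (((-(n : ℝ) : ℝ) : ℂ) * Complex.I *
        ee (-(n : ℝ) * t)) = -(Complex.I * n) * wf w n := by
    unfold wf
    rw [← intervalIntegral.integral_const_mul]
    refine intervalIntegral.integral_congr fun t _ => ?_
    push_cast
    ring
  rw [h6] at h1
  unfold wf at h1 ⊢
  linear_combination h1

/-- `χ(n)` -/
def chi (n : ℤ) : ℤ := if n % 3 = 0 then 0 else if n % 3 = 1 then 1 else -1

omit h in
theorem ee_chi (n : ℤ) : ee ((n : ℝ) * (2 * Real.pi / 3)) - ee ((n : ℝ) * (-(2 * Real.pi / 3))) =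
    Complex.I * ((Real.sqrt 3 : ℝ) : ℂ) * (chi n : ℂ) := by
  have key : ∀ m r : ℤ, n = 3 * m + r → ee ((n : ℝ) * (2 * Real.pi / 3)) =
      ee ((r : ℝ) * (2 * Real.pi / 3)) ∧
      ee ((n : ℝ) * (-(2 * Real.pi / 3))) = ee ((r : ℝ) * (-(2 * Real.pi / 3))) := by
    intro m r hn
    have h1 : ee ((m : ℝ) * (2 * Real.pi)) = 1 := by
      have := ee_int m 0
      simpa [ee_zero] using this
    have h2 : ee (((-m : ℤ) : ℝ) * (2 * Real.pi)) = 1 := by
      have := ee_int (-m) 0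
      simpa [ee_zero] using this
    constructor
    · rw [hn, show (((3 * m + r : ℤ) : ℝ)) * (2 * Real.pi / 3) =
        (m : ℝ) * (2 * Real.pi) + (r : ℝ) * (2 * Real.pi / 3) by push_cast; ring, ee_add, h1,
        one_mul]
    · rw [hn, show (((3 * m + r : ℤ) : ℝ)) * (-(2 * Real.pi / 3)) =
        ((-m : ℤ) : ℝ) * (2 * Real.pi) + (r : ℝ) * (-(2 * Real.pi / 3)) by push_cast; ring,
        ee_add, h2, one_mul]
  have hs : Real.sin (2 * Real.pi / 3) = Real.sqrt 3 / 2 := by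
    rw [show 2 * Real.pi / 3 = Real.pi - Real.pi / 3 by ring, Real.sin_pi_sub,
      Real.sin_pi_div_three]
  have hr : n % 3 = 0 ∨ n % 3 = 1 ∨ n % 3 = 2 := by omega
  rcases hr with hr | hr | hr
  · obtain ⟨h1, h2⟩ := key (n / 3) 0 (by omega)
    rw [h1, h2, chi, if_pos hr]
    simp [ee_zero]
  · obtain ⟨h1, h2⟩ := key (n / 3) 1 (by omega)
    rw [h1, h2, chi, if_neg (by omega), if_pos hr]
    apply Complex.ext <;> simp [ee_re, ee_im, hs]
  · obtain ⟨h1, h2⟩ := key (n / 3 + 1) (-1) (by omega)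
    rw [h1, h2, chi, if_neg (by omega), if_neg (by omega)]
    apply Complex.ext <;> simp [ee_re, ee_im, hs]
    ring

theorem wf_D (n : ℤ) : wf (fun t => w' t + 2 / Real.sqrt 3 *
    (w (t + 2 * Real.pi / 3) - w (t + -(2 * Real.pi / 3)))) n =
      Complex.I * ((n : ℂ) + 2 * (chi n : ℂ)) * wf w n := by
  have hee : Continuous (fun s : ℝ => ee (-(n : ℝ) * s)) := continuous_ee.comp (by fun_prop)
  have h1 := wf_deriv h n
  have h2 := wf_shift h (2 * Real.pi / 3) n
  have h3 := wf_shift h (-(2 * Real.pi / 3)) n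
  have h0 : IntervalIntegrable (fun t => (w' t : ℂ)) volume 0 (2 * Real.pi) :=
    ⟨(h.int' 0 (2 * Real.pi)).1.ofReal, (h.int' 0 (2 * Real.pi)).2.ofReal⟩
  have hi1 : IntervalIntegrable (fun t => (w' t : ℂ) * ee (-(n : ℝ) * t)) volume 0
      (2 * Real.pi) := h0.mul_continuousOn hee.continuousOn
  have hc : ∀ c : ℝ, Continuous (fun t => (w (t + c) : ℂ) * ee (-(n : ℝ) * t)) := fun c =>
    (Complex.continuous_ofReal.comp (h.con.comp (by fun_prop))).mul hee
  have hi2 := (hc (2 * Real.pi / 3)).intervalIntegrable (μ := volume) 0 (2 * Real.pi)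
  have hi3 := (hc (-(2 * Real.pi / 3))).intervalIntegrable (μ := volume) 0 (2 * Real.pi)
  have e : wf (fun t => w' t + 2 / Real.sqrt 3 *
      (w (t + 2 * Real.pi / 3) - w (t + -(2 * Real.pi / 3)))) n =
      wf w' n + ((2 / Real.sqrt 3 : ℝ) : ℂ) * (wf (fun t => w (t + 2 * Real.pi / 3)) n -
        wf (fun t => w (t + -(2 * Real.pi / 3))) n) := by
    unfold wf
    rw [← intervalIntegral.integral_sub hi2 hi3, ← intervalIntegral.integral_const_mul,
      ← intervalIntegral.integral_add hi1 ((hi2.sub hi3).const_mul _)]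
    refine intervalIntegral.integral_congr fun t _ => ?_
    push_cast
    ring
  have h4 := ee_chi n
  have h5 : ((Real.sqrt 3 : ℝ) : ℂ) * ((Real.sqrt 3 : ℝ) : ℂ) = 3 := by
    rw [← Complex.ofReal_mul, Real.mul_self_sqrt (by norm_num)]; norm_num
  have h6 : ((Real.sqrt 3 : ℝ) : ℂ) ≠ 0 := by
    rw [Complex.ofReal_ne_zero]; positivity
  rw [e, h1, h2, h3]
  have h7 : Complex.I * ((n : ℂ) + 2 * (chi n : ℂ)) * wf w n = Complex.I * n * wf w n +
      (2 / ((Real.sqrt 3 : ℝ) : ℂ)) * (Complex.I * ((Real.sqrt 3 : ℝ) : ℂ) * (chi n : ℂ)) *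
        wf w n := by
    field_simp
  rw [h7, ← h4]
  push_cast
  ring

omit h in
theorem coef (n : ℤ) : 0 ≤ (((n : ℝ) + 2 * (chi n : ℝ)) ^ 2 - 9) / 2 - (n : ℝ) ^ 2 / 5 +
    (if n ∈ ({0, 1, -1, 2, -2, 3, -3, 5, -5} : Finset ℤ) then 6 else 0) := by
  by_cases hn : |n| < 8
  · rw [abs_lt] at hn
    obtain ⟨h1, h2⟩ := hn
    interval_cases n <;> simp [chi] <;> norm_num
  · have h2 : (if n ∈ ({0, 1, -1, 2, -2, 3, -3, 5, -5} : Finset ℤ) then (6 : ℝ) else 0) ≥ 0 := by
      split_ifs <;> norm_num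
    have h3 : (chi n : ℝ) = 0 ∨ (chi n : ℝ) = 1 ∨ (chi n : ℝ) = -1 := by
      unfold chi
      split_ifs <;> simp
    have h4 : (8 : ℝ) ≤ |(n : ℝ)| := by
      have : (8 : ℤ) ≤ |n| := by omega
      exact_mod_cast this
    rcases le_abs.mp h4 with h5 | h5
    · rcases h3 with h3 | h3 | h3 <;> rw [h3] <;> nlinarith
    · rcases h3 with h3 | h3 | h3 <;> rw [h3] <;> nlinarith

theorem int_sq : IntervalIntegrable (fun t => w' t ^ 2) volume 0 (2 * Real.pi) := by
  have hc : IntervalIntegrable (fun _ : ℝ => (1 : ℝ)) volume 0 (2 * Real.pi) :=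
    intervalIntegrable_const
  refine hc.mono_fun (h.mea.pow_const 2).aestronglyMeasurable ?_
  filter_upwards with x
  have := h.bdd' x
  rw [Real.norm_eq_abs, Real.norm_eq_abs, abs_pow, abs_one]
  exact pow_le_one₀ (abs_nonneg _) this

theorem iI_neg : ∫ t in (0 : ℝ)..(2 * Real.pi), w' t * w (t + 2 * Real.pi / 3) = - iI w w' := by
  have hcs : Continuous (fun t => w (t + 2 * Real.pi / 3)) := h.con.comp (by fun_prop)
  have hd : ∀ t, HasDerivWithinAt (fun s => w s * w (s + 2 * Real.pi / 3))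
      (w' t * w (t + 2 * Real.pi / 3) + w t * w' (t + 2 * Real.pi / 3)) (Ioi t) t := by
    intro t
    have h1 : HasDerivWithinAt (fun s => w (s + 2 * Real.pi / 3)) (w' (t + 2 * Real.pi / 3))
        (Ioi t) t := by
      have h2 := h.der (t + 2 * Real.pi / 3)
      have h3 : HasDerivWithinAt (fun s : ℝ => s + 2 * Real.pi / 3) 1 (Ioi t) t :=
        (hasDerivWithinAt_id t _).add_const _
      have h4 := HasDerivWithinAt.scomp t h2 h3
        (fun s hs => by
          simp only [mem_Ioi] at hs ⊢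
          linarith)
      rw [one_smul] at h4
      exact h4
    exact (h.der t).mul h1
  have hi1 : IntervalIntegrable (fun t => w' t * w (t + 2 * Real.pi / 3)) volume 0
      (2 * Real.pi) := (h.int' _ _).mul_continuousOn hcs.continuousOn
  have hi0 : IntervalIntegrable (fun t => w' (t + 2 * Real.pi / 3)) volume 0 (2 * Real.pi) := by
    have := (h.int' (0 + 2 * Real.pi / 3) (2 * Real.pi + 2 * Real.pi / 3)).comp_add_right
      (2 * Real.pi / 3)
    simpa using this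
  have hi2 : IntervalIntegrable (fun t => w t * w' (t + 2 * Real.pi / 3)) volume 0
      (2 * Real.pi) := hi0.continuousOn_mul h.con.continuousOn
  have h1 := intervalIntegral.integral_eq_sub_of_hasDeriv_right
    (a := 0) (b := 2 * Real.pi) (h.con.mul hcs).continuousOn (fun t _ => hd t) (hi1.add hi2)
  rw [intervalIntegral.integral_add hi1 hi2] at h1
  have h3 : w (2 * Real.pi) * w (2 * Real.pi + 2 * Real.pi / 3) - w 0 * w (0 + 2 * Real.pi / 3) =
      0 := by
    have h5 := h.per 0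
    rw [zero_add] at h5
    have h6 := h.per (0 + 2 * Real.pi / 3)
    rw [show 0 + 2 * Real.pi / 3 + 2 * Real.pi = 2 * Real.pi + 2 * Real.pi / 3 by ring] at h6
    rw [h5, h6, sub_self]
  replace h1 := h1.trans h3
  have h7 : iI w w' = ∫ t in (0 : ℝ)..(2 * Real.pi), w t * w' (t + 2 * Real.pi / 3) := by
    unfold iI
    refine intervalIntegral.integral_congr fun t _ => ?_
    ring
  rw [h7]
  linarith

theorem iI_pos : ∫ t in (0 : ℝ)..(2 * Real.pi), w' t * w (t + -(2 * Real.pi / 3)) = iI w w' := by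
  rw [← integral_shift (fun t => w' t * w (t + -(2 * Real.pi / 3))) (by
    intro t
    have h6 := h.per (t + -(2 * Real.pi / 3))
    rw [show t + -(2 * Real.pi / 3) + 2 * Real.pi = t + 2 * Real.pi + -(2 * Real.pi / 3) by
      ring] at h6
    rw [h.per', h6]) (2 * Real.pi / 3)]
  unfold iI
  refine intervalIntegral.integral_congr fun t _ => ?_
  rw [show t + 2 * Real.pi / 3 + -(2 * Real.pi / 3) = t by ring]

theorem sq_shift (c : ℝ) : ∫ t in (0 : ℝ)..(2 * Real.pi), w (t + c) ^ 2 = q2 w :=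
  integral_shift (fun t => w t ^ 2) (fun t => by rw [h.per]) c

theorem iP_shift : ∫ t in (0 : ℝ)..(2 * Real.pi), w (t + 2 * Real.pi / 3) *
    w (t + -(2 * Real.pi / 3)) = iP w := by
  have hp : ∀ a t : ℝ, w (t + 2 * Real.pi + a) = w (t + a) := by
    intro a t
    rw [show t + 2 * Real.pi + a = t + a + 2 * Real.pi by ring, h.per]
  have h1 := integral_shift (fun t => w (t + 2 * Real.pi / 3) * w (t + -(2 * Real.pi / 3)))
    (fun t => by rw [hp, hp]) (2 * Real.pi / 3)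
  have h2 := integral_shift (fun t => w (t + -(2 * Real.pi / 3)) * w t)
    (fun t => by rw [hp, h.per]) (2 * Real.pi / 3)
  rw [← h1]
  have e1 : ∀ t, w (t + 2 * Real.pi / 3 + 2 * Real.pi / 3) *
      w (t + 2 * Real.pi / 3 + -(2 * Real.pi / 3)) = w (t + -(2 * Real.pi / 3)) * w t := by
    intro t
    rw [show t + 2 * Real.pi / 3 + -(2 * Real.pi / 3) = t by ring,
      show t + 2 * Real.pi / 3 + 2 * Real.pi / 3 = t + -(2 * Real.pi / 3) + 2 * Real.pi by ring,
      h.per]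
  simp only [e1]
  rw [← h2]
  unfold iP
  refine intervalIntegral.integral_congr fun t _ => ?_
  rw [show t + 2 * Real.pi / 3 + -(2 * Real.pi / 3) = t by ring, mul_comm]

theorem int_D : ∫ t in (0 : ℝ)..(2 * Real.pi), (w' t + 2 / Real.sqrt 3 *
    (w (t + 2 * Real.pi / 3) - w (t + -(2 * Real.pi / 3)))) ^ 2 =
      q2 w' - 8 / Real.sqrt 3 * iI w w' + 8 / 3 * (q2 w - iP w) := by
  have hc1 : Continuous (fun t => w (t + 2 * Real.pi / 3)) := h.con.comp (by fun_prop)
  have hc2 : Continuous (fun t => w (t + -(2 * Real.pi / 3))) := h.con.comp (by fun_prop)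
  have i1 := int_sq h
  have i2 : IntervalIntegrable (fun t => w' t * w (t + 2 * Real.pi / 3)) volume 0
      (2 * Real.pi) := (h.int' _ _).mul_continuousOn hc1.continuousOn
  have i3 : IntervalIntegrable (fun t => w' t * w (t + -(2 * Real.pi / 3))) volume 0
      (2 * Real.pi) := (h.int' _ _).mul_continuousOn hc2.continuousOn
  have i4 : IntervalIntegrable (fun t => w (t + 2 * Real.pi / 3) ^ 2) volume 0 (2 * Real.pi) :=
    (hc1.pow 2).intervalIntegrable _ _
  have i5 : IntervalIntegrable (fun t => w (t + -(2 * Real.pi / 3)) ^ 2) volume 0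
    (2 * Real.pi) := (hc2.pow 2).intervalIntegrable _ _
  have i6 : IntervalIntegrable (fun t => w (t + 2 * Real.pi / 3) *
    w (t + -(2 * Real.pi / 3))) volume 0 (2 * Real.pi) := (hc1.mul hc2).intervalIntegrable _ _
  have hs : Real.sqrt 3 * Real.sqrt 3 = 3 := Real.mul_self_sqrt (by norm_num)
  have hs0 : Real.sqrt 3 ≠ 0 := by positivity
  have e : ∀ t, (w' t + 2 / Real.sqrt 3 * (w (t + 2 * Real.pi / 3) -
      w (t + -(2 * Real.pi / 3)))) ^ 2 =
      w' t ^ 2 + (4 / Real.sqrt 3) * (w' t * w (t + 2 * Real.pi / 3)) +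
      (-(4 / Real.sqrt 3)) * (w' t * w (t + -(2 * Real.pi / 3))) +
      (4 / 3) * w (t + 2 * Real.pi / 3) ^ 2 + (4 / 3) * w (t + -(2 * Real.pi / 3)) ^ 2 +
      (-(8 / 3)) * (w (t + 2 * Real.pi / 3) * w (t + -(2 * Real.pi / 3))) := by
    intro t
    have h2 : (2 / Real.sqrt 3) ^ 2 = 4 / 3 := by
      rw [div_pow, sq (Real.sqrt 3), hs]; norm_num
    calc _ = w' t ^ 2 + 2 * (2 / Real.sqrt 3) * (w' t * (w (t + 2 * Real.pi / 3) -
        w (t + -(2 * Real.pi / 3)))) + (2 / Real.sqrt 3) ^ 2 * (w (t + 2 * Real.pi / 3) -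
        w (t + -(2 * Real.pi / 3))) ^ 2 := by ring
      _ = _ := by rw [h2]; ring
  simp only [e]
  rw [intervalIntegral.integral_add ((((i1.add (i2.const_mul _)).add (i3.const_mul _)).add
      (i4.const_mul _)).add (i5.const_mul _)) (i6.const_mul _),
    intervalIntegral.integral_add (((i1.add (i2.const_mul _)).add (i3.const_mul _)).add
      (i4.const_mul _)) (i5.const_mul _),
    intervalIntegral.integral_add ((i1.add (i2.const_mul _)).add (i3.const_mul _))
      (i4.const_mul _),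
    intervalIntegral.integral_add (i1.add (i2.const_mul _)) (i3.const_mul _),
    intervalIntegral.integral_add i1 (i2.const_mul _)]
  simp only [intervalIntegral.integral_const_mul]
  rw [iI_neg h, iI_pos h, sq_shift h, sq_shift h, iP_shift h]
  unfold q2
  ring

end

theorem norm_wf_neg (w : ℝ → ℝ) (n : ℤ) : ‖wf w (-n)‖ = ‖wf w n‖ := by
  have h : wf w (-n) = (starRingEnd ℂ) (wf w n) := by
    unfold wf
    rw [← intervalIntegral.intervalIntegral_conj]
    refine intervalIntegral.integral_congr fun t _ => ?_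
    simp only [map_mul, Complex.conj_ofReal]
    rw [← ee_neg]
    congr 2
    push_cast
    ring
  rw [h, RCLike.norm_conj]

/-- Module QFO. -/
theorem hQFO : StQfo := by
  refine ⟨12, by norm_num, ?_⟩
  intro w w' h
  have hpi := Real.pi_pos
  have s0 := parseval w h.con.measurable 1 h.bdd
  have s1 := parseval w' h.mea 1 h.bdd'
  have hDm : Measurable (fun t => w' t + 2 / Real.sqrt 3 *
      (w (t + 2 * Real.pi / 3) - w (t + -(2 * Real.pi / 3)))) := by
    have := h.con.measurable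
    have := h.mea
    fun_prop
  have hs3 : 0 < Real.sqrt 3 := by positivity
  have s2 := parseval _ hDm (1 + 2 / Real.sqrt 3 * 2) (by
    intro t
    refine (abs_add_le _ _).trans (add_le_add (h.bdd' t) ?_)
    rw [abs_mul, abs_of_nonneg (by positivity : 0 ≤ 2 / Real.sqrt 3)]
    refine mul_le_mul_of_nonneg_left ?_ (by positivity)
    refine (abs_sub _ _).trans ?_
    linarith [h.bdd (t + 2 * Real.pi / 3), h.bdd (t + -(2 * Real.pi / 3))])
  have e1 : ∀ n : ℤ, ‖wf w' n‖ ^ 2 = (n : ℝ) ^ 2 * ‖wf w n‖ ^ 2 := by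
    intro n
    rw [wf_deriv h, norm_mul, norm_mul, Complex.norm_I, one_mul, mul_pow, Complex.norm_intCast,
      sq_abs]
  have e2 : ∀ n : ℤ, ‖wf (fun t => w' t + 2 / Real.sqrt 3 *
      (w (t + 2 * Real.pi / 3) - w (t + -(2 * Real.pi / 3)))) n‖ ^ 2 =
      ((n : ℝ) + 2 * (chi n : ℝ)) ^ 2 * ‖wf w n‖ ^ 2 := by
    intro n
    have e3 : ((n : ℂ) + 2 * (chi n : ℂ)) = ((((n : ℝ) + 2 * (chi n : ℝ)) : ℝ) : ℂ) := by
      push_cast; ring
    rw [wf_D h, norm_mul, norm_mul, Complex.norm_I, one_mul, mul_pow, e3, Complex.norm_real,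
      Real.norm_eq_abs, sq_abs]
  simp only [e1] at s1
  simp only [e2] at s2
  rw [int_D h] at s2
  have s3 := ((s2.mul_left (1 / 2)).sub (s0.mul_left (9 / 2))).sub (s1.mul_left (1 / 5))
  have s4 : HasSum (fun n : ℤ => if n ∈ ({0, 1, -1, 2, -2, 3, -3, 5, -5} : Finset ℤ) then
      -6 * ‖wf w n‖ ^ 2 else 0) (∑ n ∈ ({0, 1, -1, 2, -2, 3, -3, 5, -5} : Finset ℤ),
        if n ∈ ({0, 1, -1, 2, -2, 3, -3, 5, -5} : Finset ℤ) then -6 * ‖wf w n‖ ^ 2 else 0) := by
    apply hasSum_sum_of_ne_finset_zero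
    intro b hb
    rw [if_neg hb]
  have hle := hasSum_le (fun n => by
    have hc := coef n
    have hn : 0 ≤ ‖wf w n‖ ^ 2 := by positivity
    show (if n ∈ ({0, 1, -1, 2, -2, 3, -3, 5, -5} : Finset ℤ) then
      -6 * ‖wf w n‖ ^ 2 else 0) ≤ 1 / 2 * (((n : ℝ) + 2 * (chi n : ℝ)) ^ 2 * ‖wf w n‖ ^ 2) -
        9 / 2 * ‖wf w n‖ ^ 2 - 1 / 5 * ((n : ℝ) ^ 2 * ‖wf w n‖ ^ 2)
    split_ifs at hc ⊢ with hmem
    · nlinarith [mul_nonneg hc hn]
    · nlinarith [mul_nonneg hc hn]) s4 s3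
  have hsum : (∑ n ∈ ({0, 1, -1, 2, -2, 3, -3, 5, -5} : Finset ℤ),
        if n ∈ ({0, 1, -1, 2, -2, 3, -3, 5, -5} : Finset ℤ) then -6 * ‖wf w n‖ ^ 2 else 0) =
      -6 * (‖wf w 0‖ ^ 2 + 2 * ‖wf w 1‖ ^ 2 + 2 * ‖wf w 2‖ ^ 2 + 2 * ‖wf w 3‖ ^ 2 +
        2 * ‖wf w 5‖ ^ 2) := by
    rw [Finset.sum_congr rfl (fun n hn => if_pos hn)]
    rw [Finset.sum_insert (by decide), Finset.sum_insert (by decide),
      Finset.sum_insert (by decide), Finset.sum_insert (by decide), Finset.sum_insert (by decide),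
      Finset.sum_insert (by decide), Finset.sum_insert (by decide), Finset.sum_insert (by decide),
      Finset.sum_singleton]
    rw [norm_wf_neg w 1, norm_wf_neg w 2, norm_wf_neg w 3, norm_wf_neg w 5]
    ring
  rw [hsum] at hle
  have hq : 1 / 2 * (2 * Real.pi * (q2 w' - 8 / Real.sqrt 3 * iI w w' + 8 / 3 * (q2 w - iP w))) -
      9 / 2 * (2 * Real.pi * ∫ t in (0 : ℝ)..(2 * Real.pi), w t ^ 2) -
      1 / 5 * (2 * Real.pi * ∫ t in (0 : ℝ)..(2 * Real.pi), w' t ^ 2) =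
      2 * Real.pi * (qQ w w' - 1 / 5 * q2 w') := by
    unfold qQ q2
    ring
  rw [hq] at hle
  have hpi3 : 3 < Real.pi := Real.pi_gt_three
  have hA : 0 ≤ ‖wf w 0‖ ^ 2 + 2 * ‖wf w 1‖ ^ 2 + 2 * ‖wf w 2‖ ^ 2 + 2 * ‖wf w 3‖ ^ 2 +
        2 * ‖wf w 5‖ ^ 2 := by positivity
  have hB : ‖wf w 0‖ ^ 2 + 2 * ‖wf w 1‖ ^ 2 + 2 * ‖wf w 2‖ ^ 2 + 2 * ‖wf w 3‖ ^ 2 +
        2 * ‖wf w 5‖ ^ 2 ≤ 2 * (‖wf w 0‖ ^ 2 + ‖wf w 1‖ ^ 2 + ‖wf w 2‖ ^ 2 + ‖wf w 3‖ ^ 2 +
          ‖wf w 5‖ ^ 2) := by nlinarith [sq_nonneg ‖wf w 0‖]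
  by_contra hcon
  push Not at hcon
  nlinarith

end Pool.Agent.Helper7.LT
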