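import Pool.Agent.Helper69.LT.St
import Pool.Agent.Helper84.LE.BWT
import Pool.Agent.Helper84.LE.BKP
import Pool.Agent.Helper84.LE.M_Rec

/-! LT module Maj0: majorants of the starting functions of the weighted lace expansion. -/

set_option autoImplicit false
open scoped BigOperators ENNReal
open Pool.LE Pool.NL

namespace Pool.LT

namespace Maj0M

variable {V : Type} [DecidableEq V]

open Classical in
/-- the bound for one value of the last point -/
noncomputable def bd (T : V → V → ENNReal) (c : ENNReal) (A : Set V) (v u : V) : ENNReal :=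
  c * ∑' s : V, if s ∈ A then (∑' w : V, core0 (kc T T) v s u w) else 0

open Classical in
theorem lev_le (hNl : SNl) (hLev : SLev) {L : Finset V} {ρ k : V → ℝ} {lam : ENNReal}
    {E : Finset (Sym2 V)} {p : ℝ} {T K q : V → V → ENNReal} {nbf : V → Finset V}
    {B eps eta : ENNReal} {D : ℕ} (hE : Env0 E p L T K q nbf k B eps eta D)
    (hρ : ∀ y, 0 ≤ ρ y ∧ ρ y ≤ 1) (f : Finset (Sym2 V) → Finset (Sym2 V)) (hf : ∀ ω, f ω ⊆ ω)
    (A : Set V) (v u : V) :
    Nl lam (Ex E p (fun ω => vA L (dw ρ k) (f ω) A v u)) ≤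
      bd T ((1 + 21 * lam * eta) * B) A v u := by
  obtain ⟨-, -, -, -, -, -, -, -, h9, -⟩ := hNl lam
  have h1 := h9 V E p (fun ω => vA L (dw ρ k) (f ω) A v u) hE.p0 (by linarith [hE.p1])
  refine h1.trans ?_
  have h2 := hLev V L ρ k lam E p T K q nbf B eps eta D hE hρ f hf A v u v
  have h3 : ExE E p (fun ω => Nl lam (vA L (dw ρ k) (f ω) A v u)) =
      ExE E p (fun ω => Nl lam (vA L (dw ρ k) (f ω) A v u) * if con (f ω) v v then 1 else 0) := by
    refine ExE_congr fun ω _ => ?_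
    have h4 : con (f ω) v v := SimpleGraph.Reachable.refl v
    rw [if_pos h4, mul_one]
  rw [h3]
  refine h2.trans ?_
  unfold bd
  rw [mul_assoc (1 + 21 * lam * eta) B]
  refine mul_le_mul' le_rfl ?_
  rw [← ENNReal.tsum_mul_left]
  refine ENNReal.tsum_le_tsum fun s => ?_
  by_cases hs : s ∈ A
  · rw [if_pos hs, if_pos hs, ← ENNReal.tsum_mul_left]
    refine ENNReal.tsum_le_tsum fun w => ?_
    rw [mul_comm B]
    exact mul_le_mul' le_rfl (RecM.T_le_B hE.wk w v)
  · rw [if_neg hs, if_neg hs]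
    exact zero_le

open Classical in
theorem sum_bd (hMass : SMass) {T K q : V → V → ENNReal} {B : ENNReal} (hW : WK (kc T T) K q B)
    (c : ENNReal) (A : Set V) (v : V) :
    ∑' u : V, q v u * bd T c A v u ≤
      ∑' s : V, if s ∈ A then c * (10 * B) * kp K 24 v s else 0 := by
  have e1 : ∀ u : V, q v u * bd T c A v u = ∑' s : V, if s ∈ A then
      c * (∑' w : V, q v u * core0 (kc T T) v s u w) else 0 := by
    intro u
    unfold bd
    rw [mul_left_comm, ← ENNReal.tsum_mul_left, ← ENNReal.tsum_mul_left]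
    refine tsum_congr fun s => ?_
    by_cases hs : s ∈ A
    · rw [if_pos hs, if_pos hs, ENNReal.tsum_mul_left]
    · rw [if_neg hs, if_neg hs, mul_zero, mul_zero]
  rw [tsum_congr e1, ENNReal.tsum_comm]
  refine ENNReal.tsum_le_tsum fun s => ?_
  by_cases hs : s ∈ A
  · simp only [if_pos hs]
    rw [ENNReal.tsum_mul_left, mul_assoc]
    exact mul_le_mul' le_rfl (hMass V (kc T T) K q B hW v s)
  · simp only [if_neg hs, tsum_zero, le_refl]

open Classical in
theorem maj_WT (hNl : SNl) (hLev : SLev) (hMass : SMass) {L : Finset V} {ρ k : V → ℝ}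
    {lam : ENNReal} {E : Finset (Sym2 V)} {p : ℝ} {T K q : V → V → ENNReal} {nbf : V → Finset V}
    {B eps eta : ENNReal} {D : ℕ} (hE : Env0 E p L T K q nbf k B eps eta D)
    (hρ : ∀ y, 0 ≤ ρ y ∧ ρ y ≤ 1) :
    Maj K q lam (WT E p L (dw ρ k)) (10 * (1 + 21 * lam * eta) * B ^ 2) := by
  intro A v
  calc ∑' x : V, q v x * Nl lam (WT E p L (dw ρ k) A v x)
      ≤ ∑' x : V, q v x * bd T ((1 + 21 * lam * eta) * B) A v x := by
        refine ENNReal.tsum_le_tsum fun x => mul_le_mul' le_rfl ?_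
        exact lev_le hNl hLev hE hρ (fun ω => ω) (fun ω => Finset.Subset.refl ω) A v x
    _ ≤ ∑' s : V, if s ∈ A then (1 + 21 * lam * eta) * B * (10 * B) * kp K 24 v s else 0 :=
        sum_bd hMass hE.wk _ A v
    _ = ∑' s : V, if s ∈ A then 10 * (1 + 21 * lam * eta) * B ^ 2 * kp K 24 v s else 0 := by
        refine tsum_congr fun s => ?_
        by_cases hs : s ∈ A
        · rw [if_pos hs, if_pos hs]
          ring
        · rw [if_neg hs, if_neg hs]

open Classical in
theorem maj_W3 (hNl : SNl) (hLev : SLev) (hMass : SMass) {L : Finset V} {ρ k : V → ℝ}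
    {lam : ENNReal} {E : Finset (Sym2 V)} {p : ℝ} {T K q : V → V → ENNReal} {nbf : V → Finset V}
    {B eps eta : ENNReal} {D : ℕ} (hE : Env0 E p L T K q nbf k B eps eta D)
    (hρ : ∀ y, 0 ≤ ρ y ∧ ρ y ≤ 1) :
    Maj K (fun v (ub : V × V) => if ub.2 ∈ nbf ub.1 then q v ub.1 else 0) lam
      (W3 E p L (dw ρ k)) (D * (10 * (1 + 21 * lam * eta) * B ^ 2)) := by
  intro A v
  have h1 : ∀ ub : V × V, (if ub.2 ∈ nbf ub.1 then q v ub.1 else 0) *
      Nl lam (W3 E p L (dw ρ k) A v ub) ≤ if ub.2 ∈ nbf ub.1 then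
        q v ub.1 * bd T ((1 + 21 * lam * eta) * B) A v ub.1 else 0 := by
    intro ub
    by_cases hb : ub.2 ∈ nbf ub.1
    · rw [if_pos hb, if_pos hb]
      refine mul_le_mul' le_rfl ?_
      exact lev_le hNl hLev hE hρ (fun ω => ω.erase s(ub.1, ub.2))
        (fun ω => Finset.erase_subset _ _) A v ub.1
    · rw [if_neg hb, if_neg hb, zero_mul]
  have h2 : ∀ u : V, (∑' b : V, if b ∈ nbf u then
      q v u * bd T ((1 + 21 * lam * eta) * B) A v u else 0) ≤
        D * (q v u * bd T ((1 + 21 * lam * eta) * B) A v u) := by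
    intro u
    have h3 : (∑' b : V, if b ∈ nbf u then
      q v u * bd T ((1 + 21 * lam * eta) * B) A v u else 0) =
        ∑ b ∈ nbf u, q v u * bd T ((1 + 21 * lam * eta) * B) A v u := by
      rw [tsum_eq_sum (s := nbf u) (fun b hb => if_neg hb)]
      exact Finset.sum_congr rfl fun b hb => if_pos hb
    rw [h3, Finset.sum_const, nsmul_eq_mul]
    refine mul_le_mul' ?_ le_rfl
    exact_mod_cast hE.deg u
  calc ∑' ub : V × V, (if ub.2 ∈ nbf ub.1 then q v ub.1 else 0) *
      Nl lam (W3 E p L (dw ρ k) A v ub)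
      ≤ ∑' ub : V × V, if ub.2 ∈ nbf ub.1 then
        q v ub.1 * bd T ((1 + 21 * lam * eta) * B) A v ub.1 else 0 := ENNReal.tsum_le_tsum h1
    _ = ∑' u : V, ∑' b : V, if b ∈ nbf u then
        q v u * bd T ((1 + 21 * lam * eta) * B) A v u else 0 :=
        ENNReal.tsum_prod (f := fun u b => if b ∈ nbf u then
          q v u * bd T ((1 + 21 * lam * eta) * B) A v u else 0)
    _ ≤ ∑' u : V, D * (q v u * bd T ((1 + 21 * lam * eta) * B) A v u) :=
        ENNReal.tsum_le_tsum h2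
    _ = D * ∑' u : V, q v u * bd T ((1 + 21 * lam * eta) * B) A v u := ENNReal.tsum_mul_left
    _ ≤ D * ∑' s : V, if s ∈ A then (1 + 21 * lam * eta) * B * (10 * B) * kp K 24 v s else 0 :=
        mul_le_mul' le_rfl (sum_bd hMass hE.wk _ A v)
    _ = ∑' s : V, if s ∈ A then D * (10 * (1 + 21 * lam * eta) * B ^ 2) * kp K 24 v s else 0 := by
        rw [← ENNReal.tsum_mul_left]
        refine tsum_congr fun s => ?_
        by_cases hs : s ∈ A
        · rw [if_pos hs, if_pos hs]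
          ring
        · rw [if_neg hs, if_neg hs, mul_zero]

omit [DecidableEq V] in
/-- the sum over the cluster is at most the sum over `L` -/
theorem kap_le (L : Finset V) (k : V → ℝ) (ω : Finset (Sym2 V)) (v : V) :
    kap L k ω v ≤ ∑ y ∈ L, ENNReal.ofReal |k y| := by
  classical
  unfold kap
  exact Finset.sum_le_sum_of_subset (Finset.filter_subset _ _)

theorem Nl_diff (hProd : SProd) {L : Finset V} {ρ k : V → ℝ} (lam : ENNReal)
    (hρ : ∀ y, 0 ≤ ρ y ∧ ρ y ≤ 1) (ω : Finset (Sym2 V)) (A : Set V) (v x : V) :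
    Nl lam (mT L (dw ρ k) ω v x - mA L (dw ρ k) ω A v x) ≤
      1 + 3 * lam * ∑ y ∈ L, ENNReal.ofReal |k y| := by
  obtain ⟨-, -, -, -, ⟨h1, h2⟩, ⟨h3, h4⟩, h5, h6, -⟩ := hProd V L ρ k ω v x A hρ
  have e1 : (mT L (dw ρ k) ω v x - mA L (dw ρ k) ω A v x).fst =
      (mT L (dw ρ k) ω v x).fst - (mA L (dw ρ k) ω A v x).fst := TrivSqZeroExt.fst_sub _ _
  have e2 : (mT L (dw ρ k) ω v x - mA L (dw ρ k) ω A v x).snd =
      (mT L (dw ρ k) ω v x).snd - (mA L (dw ρ k) ω A v x).snd := TrivSqZeroExt.snd_sub _ _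
  unfold Nl
  rw [e1, e2]
  have h7 : ENNReal.ofReal |(mT L (dw ρ k) ω v x).fst - (mA L (dw ρ k) ω A v x).fst| ≤ 1 := by
    rw [← ENNReal.ofReal_one]
    refine ENNReal.ofReal_le_ofReal ?_
    rw [abs_le]
    constructor <;> linarith
  have h8 : ENNReal.ofReal |(mT L (dw ρ k) ω v x).snd - (mA L (dw ρ k) ω A v x).snd| ≤
      3 * ∑ y ∈ L, ENNReal.ofReal |k y| := by
    calc ENNReal.ofReal |(mT L (dw ρ k) ω v x).snd - (mA L (dw ρ k) ω A v x).snd|
        ≤ ENNReal.ofReal (|(mT L (dw ρ k) ω v x).snd| + |(mA L (dw ρ k) ω A v x).snd|) :=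
          ENNReal.ofReal_le_ofReal (abs_sub _ _)
      _ = ENNReal.ofReal |(mT L (dw ρ k) ω v x).snd| +
          ENNReal.ofReal |(mA L (dw ρ k) ω A v x).snd| :=
          ENNReal.ofReal_add (abs_nonneg _) (abs_nonneg _)
      _ ≤ (∑ y ∈ L, ENNReal.ofReal |k y|) + ∑ y ∈ L, ENNReal.ofReal |k y| :=
          add_le_add (h5.trans (kap_le L k ω v)) (h6.trans (kap_le L k ω v))
      _ = 2 * ∑ y ∈ L, ENNReal.ofReal |k y| := by ring
      _ ≤ 3 * ∑ y ∈ L, ENNReal.ofReal |k y| := by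
          refine mul_le_mul' ?_ le_rfl
          norm_num
  calc ENNReal.ofReal |(mT L (dw ρ k) ω v x).fst - (mA L (dw ρ k) ω A v x).fst| +
      lam * ENNReal.ofReal |(mT L (dw ρ k) ω v x).snd - (mA L (dw ρ k) ω A v x).snd|
      ≤ 1 + lam * (3 * ∑ y ∈ L, ENNReal.ofReal |k y|) :=
        add_le_add h7 (mul_le_mul' le_rfl h8)
    _ = 1 + 3 * lam * ∑ y ∈ L, ENNReal.ofReal |k y| := by ring

theorem DT_eq (L : Finset V) (r : V → DualNumber ℝ) (E : Finset (Sym2 V)) (p : ℝ) (A : Set V)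
    (v x : V) : DT E p L r A v x = Ex E p (fun ω => mT L r ω v x - mA L r ω A v x) := by
  unfold DT GT GTA Ex
  rw [← Finset.sum_sub_distrib]
  exact Finset.sum_congr rfl fun ω _ => (smul_sub _ _ _).symm

open Classical in
theorem maj_DT (hNl : SNl) (hProd : SProd) (hVan : SVan) {L : Finset V} {ρ k : V → ℝ}
    {lam : ENNReal} {E : Finset (Sym2 V)} {p : ℝ} {T K q : V → V → ENNReal} {nbf : V → Finset V}
    {B eps eta : ENNReal} {D : ℕ} (hE : Env0 E p L T K q nbf k B eps eta D)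
    (hρ : ∀ y, 0 ≤ ρ y ∧ ρ y ≤ 1) (x : V) :
    Maj K (fun (_ : V) (_ : Unit) => 1) lam
      (fun A v (_ : Unit) => DT E p L (dw ρ k) A v x)
      (1 + 3 * lam * ∑ y ∈ L, ENNReal.ofReal |k y|) := by
  intro A v
  set C : ENNReal := 1 + 3 * lam * ∑ y ∈ L, ENNReal.ofReal |k y| with hC
  obtain ⟨hz, -, -, -, -, -, -, -, h9, -⟩ := hNl lam
  have h1 := h9 V E p (fun ω => mT L (dw ρ k) ω v x - mA L (dw ρ k) ω A v x) hE.p0
    (by linarith [hE.p1])
  have h2 : ∀ ω ⊆ E, Nl lam (mT L (dw ρ k) ω v x - mA L (dw ρ k) ω A v x) ≤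
      ∑' s : V, C * (if s ∈ A then (if con ω v s then (1 : ENNReal) else 0) else 0) := by
    intro ω _
    by_cases hs : ∀ s ∈ A, ¬ con ω v s
    · have h3 := (hVan V (DualNumber ℝ) L (dw ρ k) ω A v x).2.2.2 hs
      rw [h3, sub_self, hz]
      exact zero_le
    · push Not at hs
      obtain ⟨s, hsA, hsc⟩ := hs
      refine le_trans ?_ (ENNReal.le_tsum s)
      rw [if_pos hsA, if_pos hsc, mul_one]
      exact Nl_diff hProd lam hρ ω A v x
  have h4 : ∀ s : V, ExE E p (fun ω => C * (if s ∈ A then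
      (if con ω v s then (1 : ENNReal) else 0) else 0)) ≤ if s ∈ A then C * kp K 24 v s else 0 := by
    intro s
    rw [ExE_mul_left]
    by_cases hs : s ∈ A
    · simp only [if_pos hs]
      refine mul_le_mul' le_rfl ?_
      have h5 : ExE E p (fun ω => if con ω v s then (1 : ENNReal) else 0) ≤ T v s := hE.dom v s
      refine h5.trans ?_
      have h6 : T v s ≤ kc T T v s := le_kc_self hE.one_le v s
      have h7 : kc T T v s ≤ K v s := RecM.T_le_K hE.wk v s
      have h8 : K v s ≤ kp K 24 v s := by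
        have h10 := kp_le_kp (RecM.one_le_K hE.wk) (show 1 ≤ 24 by norm_num) v s
        rwa [kp_one] at h10
      exact (h6.trans h7).trans h8
    · simp only [if_neg hs]
      rw [ExE_const hE.p0 (by linarith [hE.p1]), mul_zero]
  calc ∑' _ : Unit, 1 * Nl lam (DT E p L (dw ρ k) A v x)
      = Nl lam (DT E p L (dw ρ k) A v x) := by
        rw [tsum_fintype, Finset.univ_unique, Finset.sum_singleton, one_mul]
    _ ≤ ExE E p (fun ω => Nl lam (mT L (dw ρ k) ω v x - mA L (dw ρ k) ω A v x)) := by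
        rw [DT_eq]
        exact h1
    _ ≤ ExE E p (fun ω => ∑' s : V, C * (if s ∈ A then
          (if con ω v s then (1 : ENNReal) else 0) else 0)) := ExE_mono h2
    _ = ∑' s : V, ExE E p (fun ω => C * (if s ∈ A then
          (if con ω v s then (1 : ENNReal) else 0) else 0)) := ExE_tsum E p _
    _ ≤ ∑' s : V, if s ∈ A then C * kp K 24 v s else 0 := ENNReal.tsum_le_tsum h4

end Maj0M

open Maj0M in
theorem hMaj0 : SNl → SProd → SVan → SLev → SMass → SMaj0 := by
  intro hNl hProd hVan hLev hMass V _ L ρ k lam E p T K q nbf B eps eta D hE hρ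
  refine ⟨maj_WT hNl hLev hMass hE hρ, ?_, fun x => maj_DT hNl hProd hVan hE hρ x⟩
  exact maj_W3 hNl hLev hMass hE hρ

end Pool.LT
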